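import Mathlib
import Pool.Agent.Helper669.EIter
import Pool.Agent.Y575.MA.Dom

/-!
# Hechler forcing along a partial order: the continuum
-/

namespace Pool.Agent.Y575.SP

open Cardinal Pool.Agent.Helper669.Iter Pool.Agent.Helper669.Forcing Pool.Agent.Y575.MA

set_option linter.unusedSectionVars false

universe u

section Count

variable {I : Type u} [LinearOrder I] [WellFoundedLT I]

theorem mk_HStep_le {κ : Cardinal.{u}} (hκ : ℵ₀ ≤ κ) (hpow : κ ^ ℵ₀ = κ) {B : Set (Rep I)}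
    {D : Set I} {ξ : I} (hB : #B ≤ κ) : #(HStep B D ξ) ≤ κ := by
  classical
  -- an admissible promise is determined by the countable sets
  let V : Type u := ℕ → ℕ → (ℕ → Option B)
  let val : V → Pr I := fun v n m => ⋃ (j : ℕ), ⋃ (q : B), ⋃ (_ : v n m j = some q), bs q.1 ξ
  have hsurj : ∀ R ∈ HStep B D ξ, ∃ v : V, val v = R := by
    intro R hR
    have : ∀ n m, ∃ g : ℕ → Option B, ⋃ (j : ℕ), ⋃ (q : B), ⋃ (_ : g j = some q), bs q.1 ξ = R n m := by
      intro n m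
      obtain ⟨A, hA, hAc, -, hU⟩ := hR.1 n m
      have hAc' : Countable A := hAc
      by_cases hne : Nonempty A
      · obtain ⟨g, hg⟩ := exists_surjective_nat A
        refine ⟨fun j => some ⟨(g j).1, hA (g j).2⟩, ?_⟩
        rw [hU]
        ext w
        simp only [Set.mem_iUnion, Option.some.injEq]
        constructor
        · rintro ⟨j, q, rfl, hw⟩
          exact ⟨_, (g j).2, hw⟩
        · rintro ⟨q, hq, hw⟩
          obtain ⟨j, hj⟩ := hg ⟨q, hq⟩
          exact ⟨j, ⟨q, hA hq⟩, by simp [hj], hw⟩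
      · refine ⟨fun _ => none, ?_⟩
        rw [hU]
        ext w
        simp only [Set.mem_iUnion]
        constructor
        · rintro ⟨j, q, h, _⟩
          cases h
        · rintro ⟨q, hq, _⟩
          exact absurd ⟨⟨q, hq⟩⟩ hne
    choose g hg using this
    exact ⟨g, funext fun n => funext fun m => hg n m⟩
  have h1 : #(HStep B D ξ) ≤ #V := by
    choose! v hv using hsurj
    refine mk_le_of_injective (f := fun R : HStep B D ξ => v R.1) ?_
    intro R R' h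
    apply Subtype.ext
    rw [← hv R.1 R.2, ← hv R'.1 R'.2]
    exact congrArg val h
  refine h1.trans ?_
  have hO : #(Option B) ≤ κ := by
    rw [mk_option]
    exact (add_le_add hB (one_le_aleph0.trans hκ)).trans (add_eq_self hκ).le
  have h2 : ∀ X : Type u, #X ≤ κ → #(ℕ → X) ≤ κ := by
    intro X hX
    have : #(ℕ → X) = #X ^ ℵ₀ := by
      simp [mk_pi]
    rw [this]
    exact (power_le_power_right hX).trans hpow.le
  exact h2 _ (h2 _ (h2 _ hO))

theorem mk_HR_le {κ : Cardinal.{u}} (hκ : ℵ₀ ≤ κ) (hpow : κ ^ ℵ₀ = κ) (hI : #I ≤ κ)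
    (Q : I → I → Prop) (ξ : I) : #(HR Q ξ : Set (Pr I)) ≤ κ := by
  induction ξ using WellFoundedLT.induction with
  | ind ξ IH =>
    rw [HR_eq]
    exact mk_HStep_le hκ hpow (Pool.Agent.Helper669.EIter.mk_Vd_le hκ hI IH)

theorem mk_conditions_le {κ : Cardinal.{u}} (hκ : ℵ₀ ≤ κ) (hpow : κ ^ ℵ₀ = κ) (hI : #I ≤ κ)
    (Q : I → I → Prop) (τ : I) : #(Vd (HR Q) τ : Set (Rep I)) ≤ κ :=
  Pool.Agent.Helper669.EIter.mk_Vd_le hκ hI fun ξ _ => mk_HR_le hκ hpow hI Q ξ

end Count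

variable {J : Type u} [LinearOrder J] [WellFoundedLT J] {Q : J → J → Prop}

/-- inside every dense set there is a countable maximal antichain -/
theorem exists_antichain' (D : Set (Cond Q)) (hD : ∀ p, ∃ q ≤ p, q ∈ D) :
    ∃ A ⊆ D, A.Countable ∧ (∀ p, ∃ a ∈ A, Compat a p) ∧
      ∀ a ∈ A, ∀ b ∈ A, Compat a b → a = b := by
  obtain ⟨A, hA⟩ := zorn_subset {A : Set (Cond Q) | A ⊆ D ∧ ∀ a ∈ A, ∀ b ∈ A, Compat a b → a = b}
    (by
      intro c hc hchain
      refine ⟨⋃₀ c, ⟨Set.sUnion_subset fun s hs => (hc hs).1, ?_⟩,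
        fun s hs => Set.subset_sUnion_of_mem hs⟩
      rintro a ⟨s, hs, ha⟩ b ⟨t, ht, hb⟩ hab
      rcases hchain.total hs ht with h | h
      · exact (hc ht).2 a (h ha) b hb hab
      · exact (hc hs).2 a ha b (h hb) hab)
  refine ⟨A, hA.prop.1, ?_, ?_, hA.prop.2⟩
  · by_contra hcount
    have hcount' : ¬ Countable A := hcount
    obtain ⟨y, y', hne, h⟩ := cond_ccc (fun a : A => a.1) hcount'
    exact hne (Subtype.ext (hA.prop.2 y.1 y.2 y'.1 y'.2 h))
  · intro p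
    by_contra hcon
    push Not at hcon
    obtain ⟨q, hqp, hqD⟩ := hD p
    have hq : q ∉ A := by
      intro hq
      exact hcon q hq ⟨q, le_rfl, hqp⟩
    have hcon' : ∀ a ∈ A, ¬ Compat a q := by
      rintro a ha ⟨s, h1, h2⟩
      exact hcon a ha ⟨s, h1, h2.trans hqp⟩
    have hmem : insert q A ∈ {A : Set (Cond Q) | A ⊆ D ∧ ∀ a ∈ A, ∀ b ∈ A, Compat a b → a = b} := by
      refine ⟨Set.insert_subset hqD hA.prop.1, ?_⟩
      rintro a (rfl | ha) b (rfl | hb) hab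
      · rfl
      · obtain ⟨s, h1, h2⟩ := hab
        exact absurd ⟨s, h2, h1⟩ (hcon' b hb)
      · exact absurd hab (hcon' a ha)
      · exact hA.prop.2 a ha b hb hab
    exact hq (hA.le_of_ge hmem (Set.subset_insert q A) (Set.mem_insert q A))

/-! ### Distinct Cohen reals -/

theorem cc_distinct_aux {ξ ξ' : J} (h : ξ < ξ') {q : Cond Q}
    (h1 : ∀ r ≤ q, ∀ n a b, r ∈ meets (Cc ξ n a) → r ∈ meets (Cc ξ' n b) → a = b) : False := by
  set n := (q.1.st (ξ' : WithTop J)).length with hn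
  obtain ⟨r, hr, hlen, hst⟩ := push_long q ξ n
  set a := (Nat.unpair ((r.1.st (ξ : WithTop J)).getD n 0)).1 with ha
  obtain ⟨r', hr', hst'⟩ := push_list ξ' [a + 1] r
  have hlen' : n < (r'.1.st (ξ' : WithTop J)).length := by
    have := congrArg List.length hst'
    rw [hst _ (WithTop.coe_lt_coe.2 h)] at this
    simp at this
    omega
  have h2 : r' ∈ Cc ξ n a := down_Cc ξ n a r ⟨hlen, rfl⟩ r' hr'
  have h3 : r' ∈ Cc ξ' n (a + 1) := by
    refine ⟨hlen', ?_⟩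
    have h4 : ((r'.1.st (ξ' : WithTop J)).map (fun a => (Nat.unpair a).1)).getD n 0 = a + 1 := by
      rw [hst', hst _ (WithTop.coe_lt_coe.2 h), List.getD_append_right _ _ _ _ (by simp [hn])]
      simp [hn]
    rw [List.getD_eq_getElem _ _ (by simpa using hlen')] at h4
    rw [List.getD_eq_getElem _ _ hlen']
    simpa using h4
  have := h1 r' (hr'.trans hr) n a (a + 1) (meets_of_mem h2) (meets_of_mem h3)
  omega

theorem cc_distinct {ξ ξ' : J} (h : ξ ≠ ξ') {q : Cond Q}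
    (h1 : ∀ r ≤ q, ∀ n a b, r ∈ meets (Cc ξ n a) → r ∈ meets (Cc ξ' n b) → a = b) : False := by
  rcases lt_or_gt_of_ne h with h' | h'
  · exact cc_distinct_aux h' h1
  · exact cc_distinct_aux h' fun r hr n a b ha hb => (h1 r hr n b a hb ha).symm

theorem sameReal_spec {x y : ℕ → ℕ → Set (Cond Q)} {q : Cond Q} (h : q ∈ SameReal x y)
    (r : Cond Q) (hr : r ≤ q) (n a b : ℕ) (ha : r ∈ meets (x n a)) (hb : r ∈ meets (y n b)) :
    a = b :=
  SameReal.eq (down_SameReal x y q h r hr) ha hb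

/-! ### The continuum -/

theorem not_continuumLe {κ : Cardinal.{u}} (hJ : #J = κ) (hκ : ℵ₀ < κ) {Y : Type u}
    (hY : #Y < κ) (p : Cond Q) : p ∈ fnot (ContinuumLe (Cond Q) Y) := by
  intro q _ hq
  obtain ⟨r, _, E, hE1, hE2⟩ := mem_fex.1 hq q le_rfl
  have h1 : ∀ ξ : J, ∃ s ≤ r, ∃ y : Y, s ∈ SameReal (Cc ξ) (E y) := by
    intro ξ
    obtain ⟨r', hr', h'⟩ := mem_fimp.1 (hE2 (Cc ξ)) r le_rfl (isFun_Cc ξ r)
    obtain ⟨r'', hr'', y, h''⟩ := mem_fex.1 h' r' le_rfl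
    exact ⟨r'', hr''.trans hr', y, h''⟩
  choose f hf y hy using h1
  obtain ⟨ξ, ξ', hne, hz, s, hs1, hs2⟩ := exists_compat_same (X := J) (Z := Y) (by
    rw [hJ]
    exact mul_lt_of_lt hκ.le hY hκ) f y
  refine cc_distinct hne (q := s) fun t ht n a b ha hb => ?_
  have hfun : t ∈ IsFun (E (y ξ)) := down_IsFun _ _ (hE1 (y ξ)) t (ht.trans (hs1.trans (hf ξ)))
  obtain ⟨t', ht', c, hc⟩ := IsFun.total hfun n
  have h2 : a = c := sameReal_spec (hy ξ) t' (ht'.trans (ht.trans hs1)) n a c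
    (down_meets _ _ ha t' ht') hc
  have h3 : b = c := sameReal_spec (hy ξ') t' (ht'.trans (ht.trans hs2)) n b c
    (down_meets _ _ hb t' ht') (by rw [← hz]; exact hc)
  exact h2.trans h3.symm

/-- a countable name -/
def nm (c : ℕ → ℕ → Option (Cond Q × ℕ)) (n m : ℕ) : Set (Cond Q) :=
  {q | ∃ j, c n j = some (q, m)}

theorem exists_nm (x : ℕ → ℕ → Set (Cond Q)) :
    ∃ c, (∀ p, p ∈ IsFun (nm c)) ∧ ∀ p ∈ IsFun x, p ∈ SameReal x (nm c) := by
  classical
  have hD : ∀ n, ∃ A ⊆ {q : Cond Q | (∃ m, q ∈ meets (x n m) ∧ q ∈ IsFun x) ∨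
      q ∈ fnot (IsFun x)}, A.Countable ∧ (∀ p, ∃ a ∈ A, Compat a p) ∧
      ∀ a ∈ A, ∀ b ∈ A, Compat a b → a = b := by
    intro n
    apply exists_antichain'
    intro q
    by_cases hq : q ∈ fnot (IsFun x)
    · exact ⟨q, le_rfl, Or.inr hq⟩
    · simp only [fnot, Set.mem_ofPred_eq, not_forall, not_not] at hq
      obtain ⟨q', hq', hfun⟩ := hq
      obtain ⟨q'', hq'', m, hm⟩ := IsFun.total hfun n
      exact ⟨q'', hq''.trans hq', Or.inl ⟨m, hm, down_IsFun x _ hfun _ hq''⟩⟩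
  choose A hAD hAc hApre hAanti using hD
  have hval : ∀ n, ∀ a : Cond Q, ∃ m, a ∈ A n → (a ∈ meets (x n m) ∨ a ∈ fnot (IsFun x)) := by
    intro n a
    by_cases ha : a ∈ A n
    · rcases hAD n ha with ⟨m, h1, _⟩ | h
      · exact ⟨m, fun _ => Or.inl h1⟩
      · exact ⟨0, fun _ => Or.inr h⟩
    · exact ⟨0, fun h => absurd h ha⟩
  choose v hv using hval
  have hcode : ∀ n, ∃ g : ℕ → Option (Cond Q × ℕ), ∀ q m, (∃ j, g j = some (q, m)) ↔
      (q ∈ A n ∧ v n q = m) := by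
    intro n
    obtain ⟨a₀, ha₀, _⟩ := hApre n (Classical.arbitrary _)
    have : Nonempty (A n) := ⟨⟨a₀, ha₀⟩⟩
    have hc : Countable (A n) := hAc n
    obtain ⟨g, hg⟩ := exists_surjective_nat (A n)
    refine ⟨fun j => some ((g j).1, v n (g j).1), fun q m => ?_⟩
    constructor
    · rintro ⟨j, hj⟩
      simp only [Option.some.injEq, Prod.mk.injEq] at hj
      obtain ⟨rfl, rfl⟩ := hj
      exact ⟨(g j).2, rfl⟩
    · rintro ⟨hq, rfl⟩
      obtain ⟨j, hj⟩ := hg ⟨q, hq⟩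
      exact ⟨j, by simp [hj]⟩
  choose c hc using hcode
  have hmem : ∀ n m q, q ∈ nm c n m ↔ (q ∈ A n ∧ v n q = m) := fun n m q => hc n q m
  refine ⟨c, fun p => ⟨fun n => mem_fex.2 fun q _ => ?_, fun n m m' => mem_fimp.2 fun q _ h => ?_⟩,
    fun p hp n a b => mem_fimp.2 fun q hq h => ?_⟩
  · obtain ⟨a, ha, s, hs1, hs2⟩ := hApre n q
    exact ⟨s, hs2, v n a, meets_of_le ((hmem n _ a).2 ⟨ha, rfl⟩) hs1⟩
  · obtain ⟨r, hr, a, ha, hra⟩ := h.1 q le_rfl
    obtain ⟨r', hr', a', ha', hra'⟩ := h.2 r hr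
    obtain ⟨ha1, rfl⟩ := (hmem n _ a).1 ha
    obtain ⟨ha2, rfl⟩ := (hmem n _ a').1 ha'
    have : a = a' := hAanti n a ha1 a' ha2 ⟨r', hr'.trans hra, hra'⟩
    exact ⟨q, le_rfl, by rw [this]; rfl⟩
  · obtain ⟨r, hr, s, hs, hrs⟩ := h.2 q le_rfl
    obtain ⟨hs1, rfl⟩ := (hmem n _ s).1 hs
    have hfun : r ∈ IsFun x := down_IsFun x p hp r (hr.trans hq)
    rcases hv n s hs1 with h1 | h1
    · exact ⟨r, hr, IsFun.unique hfun (down_meets _ _ h.1 r hr) (down_meets _ _ h1 r hrs)⟩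
    · exact absurd hfun (h1 r hrs)

theorem continuumLe {κ : Cardinal.{u}} (hJ : #J = κ) (hκ : ℵ₀ < κ) (hpow : κ ^ ℵ₀ = κ)
    (p : Cond Q) : p ∈ ContinuumLe (Cond Q) κ.out := by
  classical
  have hI : #(WithTop J) ≤ κ := by
    have : #(WithTop J) = #J + 1 := mk_option
    rw [this, hJ]
    exact (add_le_add_right (one_le_aleph0.trans hκ.le) κ).trans (add_eq_self hκ.le).le
  have hC : #(Cond Q) ≤ κ := mk_conditions_le hκ.le hpow hI (QT Q) ⊤
  let N := {c : ℕ → ℕ → Option (Cond Q × ℕ) // ∀ p, p ∈ IsFun (nm c)}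
  have hN : #N ≤ κ := by
    refine (mk_subtype_le _).trans ?_
    have h2 : ∀ X : Type u, #X ≤ κ → #(ℕ → X) ≤ κ := by
      intro X hX
      have : #(ℕ → X) = #X ^ ℵ₀ := by
        simp [mk_pi]
      rw [this]
      exact (power_le_power_right hX).trans hpow.le
    refine h2 _ (h2 _ ?_)
    rw [mk_option, mk_prod]
    simp only [lift_uzero, mk_nat, lift_aleph0]
    exact (add_le_add ((mul_le_mul' hC hκ.le).trans (mul_eq_self hκ.le).le)
      (one_le_aleph0.trans hκ.le)).trans (add_eq_self hκ.le).le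
  have hne : Nonempty N := by
    obtain ⟨c, hc, _⟩ := exists_nm (Q := Q) fun _ _ => ∅
    exact ⟨⟨c, hc⟩⟩
  obtain ⟨g⟩ : Nonempty (N ↪ κ.out) := Cardinal.le_def _ _ |>.1 (by rw [mk_out]; exact hN)
  have hsurj : Function.Surjective (Function.invFun g) := Function.invFun_surjective g.injective
  refine mem_fex_of_mem (fun i => nm (Function.invFun g i).1) ?_ ?_
  · exact down_fand (down_fall fun _ => down_IsFun _) (down_fall fun _ => down_fimp _ _)
  · refine ⟨fun i => (Function.invFun g i).2 p, fun x => mem_fimp.2 fun q _ hq => ?_⟩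
    obtain ⟨c, hc1, hc2⟩ := exists_nm x
    obtain ⟨i, hi⟩ := hsurj ⟨c, hc1⟩
    refine ⟨q, le_rfl, mem_fex_of_mem i (down_SameReal _ _) ?_⟩
    have h2 : q ∈ SameReal x (nm (Function.invFun g i).1) := by
      rw [show (Function.invFun g i).1 = c from congrArg Subtype.val hi]
      exact hc2 q hq
    exact h2

end Pool.Agent.Y575.SP
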