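import Mathlib
import Pool.Agent.Y575.SP.Count

/-!
# `cov(M)`, the continuum and Luzin sets after Hechler forcing along `lam × κ`

The index set is `lam × κ`; the promises at `(η, k)` may use the coordinates `(η', k')` with
`η' < η` and `k' ≤ k`.
-/

namespace Pool.Agent.Y575.SP

open Cardinal Ordinal Pool.Agent.Helper669.Iter Pool.Agent.Helper669.Forcing Pool.Agent.Y575.MA

set_option linter.unusedSectionVars false

/-! ### General facts -/

section General

universe u

variable {J : Type u} [LinearOrder J] [WellFoundedLT J] {Q : J → J → Prop}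

/-- every function of the extension is dominated by some generic function of a given family -/
theorem dominated' (hQlt : ∀ x y, Q x y → x < y) {Y : Type u} (g : Y → J)
    (hcof : ∀ S : Set J, S.Countable → ∃ y, ∀ s ∈ S, Q s (g y)) (x : ℕ → ℕ → Set (Cond Q)) :
    ∃ y : Y, ∀ p ∈ IsFun x, ∃ p' ≤ p, p' ∈ LeStar x (Ee (g y)) := by
  classical
  have hD : ∀ n, ∃ A ⊆ {q : Cond Q | (∃ m, q ∈ meets (x n m)) ∨
      q ∈ fnot (IsFun x)}, A.Countable ∧ ∀ p, ∃ a ∈ A, Compat a p := by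
    intro n
    apply exists_antichain
    intro q
    by_cases hq : q ∈ fnot (IsFun x)
    · exact ⟨q, le_rfl, Or.inr hq⟩
    · simp only [fnot, Set.mem_ofPred_eq, not_forall, not_not] at hq
      obtain ⟨q', hq', hfun⟩ := hq
      obtain ⟨q'', hq'', m, hm⟩ := IsFun.total hfun n
      exact ⟨q'', hq''.trans hq', Or.inl ⟨m, hm⟩⟩
  choose A hAD hAc hApre using hD
  obtain ⟨y, hy⟩ := hcof (⋃ n, ⋃ a ∈ A n, {j : J | (j : WithTop J) ∈ supp a.1})
    (Set.countable_iUnion fun n => (hAc n).biUnion fun a _ => countable_supp a)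
  refine ⟨y, fun p hp => dominated_aux hQlt x (g y) A hAD hAc hApre (fun n a ha η hη => ?_) hp⟩
  induction η using WithTop.recTopCoe with
  | top => exact absurd hη (top_notMem_supp a)
  | coe j => exact ⟨j, g y, rfl, rfl, hy j (Set.mem_iUnion.2 ⟨n, Set.mem_biUnion ha hη⟩)⟩

/-- the set of sequences which are below the generic real at all places from `k` on -/
def Th (ξ : J) (k : ℕ) (s : List ℕ) : Set (Cond Q) :=
  {p | ∀ n, k ≤ n → n < s.length → ∃ m, s.getD n 0 ≤ m ∧ p ∈ Ee ξ n m}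

theorem down_Th (ξ : J) (k : ℕ) (s : List ℕ) : Down (Th (Q := Q) ξ k s) := by
  intro p hp q hq n h1 h2
  obtain ⟨m, hm, h⟩ := hp n h1 h2
  exact ⟨m, hm, down_Ee ξ n m p h q hq⟩

theorem isMeagerCode_Th (ξ : J) (p : Cond Q) : p ∈ IsMeagerCode (Th ξ) := by
  refine fun k s => mem_fex.2 fun q _ => ?_
  set N := max s.length k with hN
  obtain ⟨r, hr, hlen, _⟩ := push_long q ξ N
  set e := (r.1.st (ξ : WithTop J)).getD N 0 with he
  refine ⟨r, hr, s ++ List.replicate (N - s.length) 0 ++ [e + 1], ?_, ?_⟩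
  · rw [List.append_assoc]; exact List.prefix_append _ _
  · intro r' hr' hmeet
    obtain ⟨q', hq', hT⟩ := exists_of_meets (down_Th ξ k _) hmeet
    have hlen' : (s ++ List.replicate (N - s.length) 0).length = N := by
      simp; omega
    obtain ⟨m, hm, h1⟩ := hT N (le_max_right _ _)
      (by rw [List.length_append, hlen']; simp)
    rw [List.getD_append_right _ _ _ _ (by rw [hlen']), hlen'] at hm
    have h2 : r ∈ Ee ξ N e := ⟨hlen, rfl⟩
    have h3 := down_Ee ξ N e r h2 q' (hq'.trans hr')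
    have h4 : m = e := h1.2.symm.trans h3.2
    simp at hm
    omega

/-- a function dominated by the generic function at `ξ` lies in the meager set -/
theorem inMeager_of_leStar {ξ : J} {x : ℕ → ℕ → Set (Cond Q)} {p : Cond Q}
    (h : p ∈ LeStar x (Ee ξ)) : p ∈ InMeager x (Th ξ) := by
  refine mem_fex.2 fun q hq => ?_
  obtain ⟨r, hr, N, hN⟩ := mem_fex.1 h q hq
  refine ⟨r, hr, N, fun s => mem_fimp.2 fun t ht hinit => ⟨t, le_rfl, ?_⟩⟩
  intro t' ht'
  obtain ⟨v, hv, hlen, _⟩ := push_long t' ξ s.length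
  refine ⟨v, hv, v, fun n hn hn' => ⟨(v.1.st (ξ : WithTop J)).getD n 0, ?_, ⟨by omega, rfl⟩⟩,
    le_rfl⟩
  have h1 : v ∈ meets (Ee (Q := Q) ξ n ((v.1.st (ξ : WithTop J)).getD n 0)) :=
    meets_of_mem ⟨by omega, rfl⟩
  have h2 : v ∈ meets (x n (s.getD n 0)) := down_meets _ _ (hinit n hn') v (hv.trans ht')
  obtain ⟨w, _, h3⟩ := mem_fimp.1 (hN n hn (s.getD n 0) ((v.1.st (ξ : WithTop J)).getD n 0)) v
    (hv.trans (ht'.trans ht)) ⟨h2, h1⟩
  exact h3

theorem covLe (hQlt : ∀ x y, Q x y → x < y) {Y : Type u} (g : Y → J)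
    (hcof : ∀ S : Set J, S.Countable → ∃ y, ∀ s ∈ S, Q s (g y)) (p : Cond Q) :
    p ∈ CovLe (Cond Q) Y := by
  refine mem_fex_of_mem (fun y => Th (g y)) ?_ ?_
  · exact down_fand (down_fall fun _ => down_IsMeagerCode _) (down_fall fun _ => down_fimp _ _)
  · refine ⟨fun y => isMeagerCode_Th (g y) p, fun x => mem_fimp.2 fun q _ hq => ?_⟩
    obtain ⟨y, hy⟩ := dominated' hQlt g hcof x
    obtain ⟨q', hq', h⟩ := hy q hq
    exact ⟨q', hq', mem_fex_of_mem y (down_InMeager _ _) (inMeager_of_leStar h)⟩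

end General

/-! ### Small sets of coordinates -/

/-- sets smaller than the cofinality are bounded -/
theorem exists_bound' {κ : Cardinal.{0}} (S : Set κ.ord.ToType) (hS : #S < κ.ord.cof) :
    ∃ b, ∀ s ∈ S, s < b := by
  have hc : Order.cof κ.ord.ToType = κ.ord.cof := by rw [cof_toType]
  by_contra hcon
  push Not at hcon
  have h1 : IsCofinal S := fun b => by
    obtain ⟨s, hs, hb⟩ := hcon b
    exact ⟨s, hs, hb⟩
  have h2 := Order.cof_le h1
  rw [hc] at h2
  exact absurd h2 (not_le.2 hS)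

section

variable {lam : Cardinal.{0}}

/-- the index set -/
abbrev JJ (lam κ : Cardinal.{0}) : Type := lam.ord.ToType ×ₗ κ.ord.ToType

/-- the relation: `M` says which first coordinates may be used -/
def QQ (M : lam.ord.ToType → lam.ord.ToType → Prop) (κ : Cardinal.{0}) (x y : JJ lam κ) : Prop :=
  M (ofLex x).1 (ofLex y).1 ∧ (ofLex x).2 ≤ (ofLex y).2

/-- the forcing notion -/
abbrev PP (M : lam.ord.ToType → lam.ord.ToType → Prop) (κ : Cardinal.{0}) : Type := Cond (QQ M κ)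

/-- a memory structure on `lam` -/
structure Memory (M : lam.ord.ToType → lam.ord.ToType → Prop) : Prop where
  lt : ∀ a b, M a b → a < b
  countable : ∀ S : Set lam.ord.ToType, S.Countable → ∃ b, ∀ s ∈ S, M s b
  small : ∀ U : Set lam.ord.ToType, #U < lam → ∃ D : Set lam.ord.ToType, U ⊆ D ∧
    (∀ x ∈ D, ∀ y, M y x → y ∈ D) ∧ ∃ η, η ∉ D

theorem memory_of_isRegular (hlam : lam.IsRegular) (h0 : ℵ₀ < lam) :
    Memory (lam := lam) (fun a b => a < b) where
  lt _ _ h := h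
  countable S hS := exists_bound' S (by
    rw [hlam.cof_ord]
    exact (le_aleph0_iff_set_countable.2 hS).trans_lt h0)
  small U hU := by
    obtain ⟨η, hη⟩ := exists_bound' U (by rw [hlam.cof_ord]; exact hU)
    exact ⟨{x | x < η}, hη, fun x hx y hy => hy.trans hx, η, fun h => lt_irrefl η h⟩

theorem aleph0_lt_cof {κ : Cardinal.{0}} (hκ : ℵ₀ < κ) (hpow : κ ^ ℵ₀ = κ) : ℵ₀ < κ.ord.cof := by
  by_contra hcon
  push Not at hcon
  have h1 := Cardinal.lt_power_cof_ord hκ.le
  have h2 : κ ^ κ.ord.cof ≤ κ ^ ℵ₀ :=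
    power_le_power_left (aleph0_pos.trans hκ).ne' hcon
  rw [hpow] at h2
  exact absurd h1 (not_lt.2 h2)

/-- A memory structure in which the memory of each point is countable. -/
theorem memory_of_pow (h0 : ℵ₀ < lam) (hpow : lam ^ ℵ₀ = lam) :
    ∃ M : lam.ord.ToType → lam.ord.ToType → Prop, Memory M := by
  classical
  have hω := aleph0_lt_cof h0 hpow
  -- each countable set is listed `lam` many times
  have hL : #(lam.ord.ToType) = lam := mk_ord_toType lam
  have hcard : #(lam.ord.ToType) = #(lam.ord.ToType × (ℕ → lam.ord.ToType)) := by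
    rw [mk_prod, Cardinal.lift_id, Cardinal.lift_id, hL]
    have h1 : #(ℕ → lam.ord.ToType) = lam := by
      have : #(ℕ → lam.ord.ToType) = #(lam.ord.ToType) ^ ℵ₀ := by simp [mk_pi]
      rw [this, hL, hpow]
    rw [h1, mul_eq_self h0.le]
  obtain ⟨e⟩ := Cardinal.eq.1 hcard
  have hlate : ∀ (f : ℕ → lam.ord.ToType) (b : lam.ord.ToType), ∃ l, b < l ∧ (e l).2 = f := by
    intro f b
    by_contra hcon
    push Not at hcon
    have h1 : ∀ a : lam.ord.ToType, e.symm (a, f) ∈ Set.Iic b := by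
      intro a
      by_contra h
      exact hcon (e.symm (a, f)) (not_le.1 h) (by rw [Equiv.apply_symm_apply])
    have h2 : #(lam.ord.ToType) ≤ #(Set.Iic b) :=
      mk_le_of_injective (f := fun a => (⟨e.symm (a, f), h1 a⟩ : Set.Iic b)) (by
        intro a a' h
        have h3 := e.symm.injective (Subtype.ext_iff.1 h)
        exact congrArg Prod.fst h3)
    have h4 : #(Set.Iic b) < lam := by
      have h5 : Set.Iic b = insert b (Set.Iio b) := by rw [Set.Iio_insert]
      rw [h5]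
      refine mk_insert_le.trans_lt ?_
      exact add_lt_of_lt h0.le (Cardinal.mk_Iio_toType_ord_lt b) (one_lt_aleph0.trans h0)
    rw [hL] at h2
    exact absurd h4 (not_lt.2 h2)
  let R : lam.ord.ToType → lam.ord.ToType → Prop := fun a b => (∃ n, (e b).2 n = a) ∧ a < b
  have hRlt : ∀ a b, Relation.TransGen R a b → a < b := by
    intro a b h
    induction h with
    | single h => exact h.2
    | tail _ h ih => exact ih.trans h.2
  have hcount : ∀ b, {a | Relation.TransGen R a b}.Countable := by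
    intro b
    induction b using WellFoundedLT.induction with
    | ind b IH =>
      have h1 : {a | Relation.TransGen R a b} ⊆ ⋃ n : ℕ, {a | (e b).2 n < b ∧
          (a = (e b).2 n ∨ Relation.TransGen R a ((e b).2 n))} := by
        intro a ha
        rcases Relation.TransGen.tail'_iff.1 ha with ⟨c, hac, ⟨n, hn⟩, hcb⟩
        refine Set.mem_iUnion.2 ⟨n, ?_⟩
        rw [Set.mem_ofPred_eq, hn]
        refine ⟨hcb, ?_⟩
        rcases Relation.reflTransGen_iff_eq_or_transGen.1 hac with h | h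
        · exact Or.inl h.symm
        · exact Or.inr h
      refine (Set.countable_iUnion fun n => ?_).mono h1
      by_cases h : (e b).2 n < b
      · refine ((Set.countable_singleton ((e b).2 n)).union (IH _ h)).mono ?_
        rintro a ⟨_, rfl | h⟩
        · exact Or.inl rfl
        · exact Or.inr h
      · refine Set.countable_empty.mono ?_
        rintro a ⟨h', _⟩
        exact absurd h' h
  refine ⟨Relation.TransGen R, hRlt, fun S hS => ?_, fun U hU => ?_⟩
  · obtain ⟨b, hb⟩ := exists_bound' S ((le_aleph0_iff_set_countable.2 hS).trans_lt hω)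
    rcases S.eq_empty_or_nonempty with h | h
    · exact ⟨b, fun s hs => by rw [h] at hs; exact absurd hs (Set.notMem_empty s)⟩
    · obtain ⟨f, hf⟩ := hS.exists_eq_range h
      obtain ⟨l, hl, hlf⟩ := hlate f b
      refine ⟨l, fun s hs => Relation.TransGen.single ⟨?_, (hb s hs).trans hl⟩⟩
      rw [hlf]
      rw [hf] at hs
      exact hs
  · let D : Set lam.ord.ToType := U ∪ ⋃ u : U, {a | Relation.TransGen R a u.1}
    have hD : #D < lam := by
      refine (mk_union_le _ _).trans_lt (add_lt_of_lt h0.le hU ?_)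
      refine (mk_iUnion_le_sum_mk).trans_lt ?_
      refine ((Cardinal.sum_le_sum _ (fun _ => ℵ₀) fun (u : U) =>
        le_aleph0_iff_set_countable.2 (hcount (u : lam.ord.ToType)))).trans_lt ?_
      rw [Cardinal.sum_const']
      exact mul_lt_of_lt h0.le hU h0
    refine ⟨D, Set.subset_union_left, ?_, ?_⟩
    · rintro x (hx | hx) y hy
      · exact Or.inr (Set.mem_iUnion.2 ⟨⟨x, hx⟩, hy⟩)
      · obtain ⟨u, hu⟩ := Set.mem_iUnion.1 hx
        exact Or.inr (Set.mem_iUnion.2 ⟨u, Relation.TransGen.trans hy hu⟩)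
    · by_contra hcon
      push Not at hcon
      have h1 : D = Set.univ := Set.eq_univ_of_forall hcon
      rw [h1, mk_univ, hL] at hD
      exact lt_irrefl _ hD

variable {κ : Cardinal.{0}} {M : lam.ord.ToType → lam.ord.ToType → Prop}

theorem QQ_lt (hM : Memory M) {x y : JJ lam κ} (h : QQ M κ x y) : x < y := by
  rw [Prod.Lex.lt_iff]
  exact Or.inl (hM.lt _ _ h.1)

theorem mk_JJ (hκ : ℵ₀ ≤ κ) (hlam0 : lam ≠ 0) (hle : lam ≤ κ) : #(JJ lam κ) = κ := by
  have h1 : #(JJ lam κ) = #(lam.ord.ToType × κ.ord.ToType) :=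
    Cardinal.mk_congr (ofLex (α := lam.ord.ToType × κ.ord.ToType))
  rw [h1, mk_prod, Cardinal.lift_id, Cardinal.lift_id, mk_ord_toType, mk_ord_toType]
  exact mul_eq_right hκ hle hlam0

/-- the cover -/
theorem covLe_lam (hM : Memory M) (hκ : ℵ₀ < κ) (hpow : κ ^ ℵ₀ = κ)
    (hcof : κ.ord.cof ≤ lam) (p : PP M κ) : p ∈ CovLe (PP M κ) lam.out := by
  have hω := aleph0_lt_cof hκ hpow
  have hlam0 : ℵ₀ < lam := hω.trans_le hcof
  -- a cofinal set of second coordinates
  obtain ⟨C, hC, hC'⟩ := Order.exists_cof_eq κ.ord.ToType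
  rw [cof_toType] at hC'
  have hcard : #(lam.out) = #(lam.ord.ToType × C) := by
    rw [mk_prod, Cardinal.lift_id, Cardinal.lift_id, mk_out, mk_ord_toType, hC']
    exact (mul_eq_left hlam0.le hcof (hω.trans' aleph0_pos).ne').symm
  obtain ⟨e⟩ := Cardinal.eq.1 hcard
  refine covLe (Q := QQ M κ) (fun _ _ h => QQ_lt hM h)
    (fun y => toLex ((e y).1, ((e y).2 : κ.ord.ToType))) (fun S hS => ?_) p
  obtain ⟨a, ha⟩ := hM.countable ((fun x : JJ lam κ => (ofLex x).1) '' S) (hS.image _)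
  obtain ⟨b, hb⟩ := exists_bound' (κ := κ) ((fun x : JJ lam κ => (ofLex x).2) '' S)
    ((le_aleph0_iff_set_countable.2 (hS.image _)).trans_lt hω)
  obtain ⟨c, hc, hbc⟩ := hC b
  refine ⟨e.symm (a, ⟨c, hc⟩), fun s hs => ?_⟩
  rw [Equiv.apply_symm_apply]
  exact ⟨ha _ ⟨s, hs, rfl⟩, (hb _ ⟨s, hs, rfl⟩).le.trans hbc⟩

theorem not_covLe_lam (hM : Memory M) (hlam0 : ℵ₀ < lam) (hκ : ℵ₀ < κ)
    {μ : Cardinal.{0}} (hμ : μ < lam) (p : PP M κ) : p ∈ fnot (CovLe (PP M κ) μ.out) := by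
  intro q _ hq
  obtain ⟨r, _, T, hT1, hT2⟩ := mem_fex.1 hq q le_rfl
  choose S hSc hS using fun y => cohen_avoids (Q := QQ M κ) (T y)
  have hU : #(⋃ y, S y : Set (JJ lam κ)) < lam := by
    refine (mk_iUnion_le_sum_mk).trans_lt ?_
    refine ((Cardinal.sum_le_sum _ (fun _ => ℵ₀) fun y =>
      le_aleph0_iff_set_countable.2 (hSc y))).trans_lt ?_
    rw [Cardinal.sum_const', mk_out]
    exact mul_lt_of_lt hlam0.le hμ hlam0
  obtain ⟨D, hUD, hD, η, hη⟩ := hM.small ((fun x : JJ lam κ => (ofLex x).1) '' ⋃ y, S y)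
    (mk_image_le.trans_lt hU)
  have hne : Nonempty κ.ord.ToType := by
    rw [← mk_ne_zero_iff, mk_ord_toType]
    exact (aleph0_pos.trans hκ).ne'
  obtain ⟨k0⟩ := hne
  obtain ⟨r', hr', h'⟩ := mem_fimp.1 (hT2 (Cc (Q := QQ M κ) (toLex (η, k0)))) r le_rfl
    (isFun_Cc (Q := QQ M κ) _ r)
  obtain ⟨r'', hr'', y, h''⟩ := mem_fex.1 h' r' le_rfl
  refine hS y ({x | (ofLex x).1 ∈ D} : Set (JJ lam κ)) (fun x hx z hz => ?_) (fun x hx => ?_)
    (toLex (η, k0)) ?_ (hT1 y) r'' (hr''.trans hr') h''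
  · exact hD _ hx _ hz.1
  · exact hUD ⟨x, Set.mem_iUnion.2 ⟨y, hx⟩, rfl⟩
  · exact hη

theorem hasLuzinSet (hlam0 : ℵ₀ < lam) (hκ : ℵ₀ < κ) (hpow : κ ^ ℵ₀ = κ) (p : PP M κ) :
    p ∈ HasLuzinSet (PP M κ) κ := by
  have hω := aleph0_lt_cof hκ hpow
  obtain ⟨e⟩ : Nonempty (κ.out ≃ κ.ord.ToType) := Cardinal.eq.1 (by rw [mk_out, mk_ord_toType])
  have hne : Nonempty lam.ord.ToType := by
    rw [← mk_ne_zero_iff, mk_ord_toType]
    exact (aleph0_pos.trans hlam0).ne'
  obtain ⟨a0⟩ := hne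
  have hinj : ∀ i j : κ.out, i ≠ j → (toLex (a0, e i) : JJ lam κ) ≠ toLex (a0, e j) := by
    intro i j hij h
    apply hij
    have h1 := congrArg (fun x : JJ lam κ => (ofLex x).2) h
    exact e.injective h1
  refine mem_fex_of_mem (fun i => Cc (Q := QQ M κ) (toLex (a0, e i))) ?_ ?_
  · exact down_fand (down_fall fun _ => down_IsFun _) (down_fand
      (down_fall fun _ => down_fall fun _ => down_fall fun _ => down_fnot _)
      (down_fall fun _ => down_fimp _ _))
  refine ⟨fun i => isFun_Cc _ p, fun i j hij q _ hq => ?_, fun T => mem_fimp.2 fun q _ hq => ?_⟩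
  · exact cc_distinct (hinj i j hij) (sameReal_spec hq)
  · obtain ⟨S, hSc, hS⟩ := cohen_avoids (Q := QQ M κ) T
    obtain ⟨b, hb⟩ := exists_bound' (κ := κ) ((fun x : JJ lam κ => (ofLex x).2) '' S)
      ((le_aleph0_iff_set_countable.2 (hSc.image _)).trans_lt hω)
    have hav : ∀ k : κ.ord.ToType, b ≤ k → IsMeagerCode T ⊆
        fnot (InMeager (Cc (Q := QQ M κ) (toLex (a0, k))) T) := by
      intro k hk
      refine hS ({x | (ofLex x).2 < b} : Set (JJ lam κ)) (fun x hx z hz => ?_) (fun x hx => ?_)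
        (toLex (a0, k)) ?_
      · exact hz.2.trans_lt hx
      · exact hb _ ⟨x, hx, rfl⟩
      · intro h
        exact absurd (show k < b from h) (not_lt.2 hk)
    refine ⟨q, le_rfl, fun q' hq' hfull => ?_⟩
    obtain ⟨r, hr, R, hR1, hR2, hR3⟩ := mem_fex.1 hfull q' le_rfl
    have h1 : ∀ x : κ.out, ∃ s ≤ r, ∃ y : κ.out, e y < b ∧ s ∈ meets (R x y) := by
      intro x
      obtain ⟨s, hs, y, hy⟩ := IsFun.total hR1 x
      refine ⟨s, hs, y, ?_, hy⟩
      by_contra hcon
      obtain ⟨t, ht, ht'⟩ := mem_fimp.1 (hR3 x y) s hs hy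
      exact hav (e y) (not_lt.1 hcon) (down_IsMeagerCode T q hq q' hq') t
        (ht.trans (hs.trans hr)) ht'
    choose f hf y hy1 hy2 using h1
    have hIio : #(Set.Iio b) < κ := Cardinal.mk_Iio_toType_ord_lt b
    obtain ⟨x, x', hne, hz, s, hs1, hs2⟩ := exists_compat_same (X := κ.out) (Z := Set.Iio b) (by
      rw [mk_out]
      exact mul_lt_of_lt hκ.le hIio hκ) f fun x => ⟨e (y x), hy1 x⟩
    have hyy : y x = y x' := e.injective (Subtype.ext_iff.1 hz)
    apply hne
    refine IsInj.eq (down_IsInj R r hR2 s (hs1.trans (hf x))) (down_meets _ _ (hy2 x) s hs1) ?_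
    rw [hyy]
    exact down_meets _ _ (hy2 x') s hs2

/-- the sentences forced -/
theorem forced (hM : Memory M) (hκ : ℵ₀ < κ) (hpow : κ ^ ℵ₀ = κ)
    (hcof : κ.ord.cof ≤ lam) (hle : lam ≤ κ) (p : PP M κ) :
    p ∈ CardinalsPreserved.{0, 0} (PP M κ) ∧ p ∈ CovIs (PP M κ) lam ∧
      p ∈ ContinuumIs (PP M κ) κ ∧ p ∈ HasLuzinSet (PP M κ) κ := by
  have hω := aleph0_lt_cof hκ hpow
  have hlam0 : ℵ₀ < lam := hω.trans_le hcof
  have hJ : #(JJ lam κ) = κ := mk_JJ hκ.le (aleph0_pos.trans hlam0).ne' hle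
  refine ⟨cardinalsPreserved (Q := QQ M κ) p, ⟨covLe_lam hM hκ hpow hcof p, fun μ hμ =>
    not_covLe_lam hM hlam0 hκ hμ p⟩, ⟨continuumLe (Q := QQ M κ) hJ hκ hpow p, fun μ hμ => ?_⟩,
    hasLuzinSet hlam0 hκ hpow p⟩
  exact not_continuumLe (Q := QQ M κ) hJ hκ (by rw [mk_out]; exact hμ) p

/-- **The spectrum**, the forcing direction. -/
theorem spectrum (κ lam : Cardinal.{0}) (hκ : ℵ₀ < κ) (hpow : κ ^ ℵ₀ = κ)
    (hlam : lam.IsRegular ∨ lam ^ ℵ₀ = lam) (hcof : κ.ord.cof ≤ lam) (hle : lam ≤ κ) :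
    ∃ (P : Type) (_ : Preorder P), Nonempty P ∧
      (∀ A : Set P, (∀ a ∈ A, ∀ b ∈ A, a ≠ b → ¬ ∃ s, s ≤ a ∧ s ≤ b) → A.Countable) ∧
      ∀ p : P, p ∈ CardinalsPreserved.{0, 0} P ∧ p ∈ CovIs P lam ∧
        p ∈ ContinuumIs P κ ∧ p ∈ HasLuzinSet P κ := by
  have hω := aleph0_lt_cof hκ hpow
  have hlam0 : ℵ₀ < lam := hω.trans_le hcof
  obtain ⟨M, hM⟩ : ∃ M : lam.ord.ToType → lam.ord.ToType → Prop, Memory M := by
    rcases hlam with h | h
    · exact ⟨_, memory_of_isRegular h hlam0⟩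
    · exact memory_of_pow hlam0 h
  refine ⟨PP M κ, inferInstance, inferInstance, fun A hA => ?_, forced hM hκ hpow hcof hle⟩
  by_contra hcount
  have hcount' : ¬ Countable A := hcount
  obtain ⟨y, y', hne, h⟩ := cond_ccc (Q := QQ M κ) (fun a : A => a.1) hcount'
  exact hA y.1 y.2 y'.1 y'.2 (fun h' => hne (Subtype.ext h')) h

end

end Pool.Agent.Y575.SP
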