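import Mathlib

/-!
# The covering number of the meager ideal does not have countable cofinality

Bartoszyński's characterization of `cov(M)` by infinitely often equal functions, and two
consequences: `cov(M)` has uncountable cofinality, and `cf(𝔠) ≤ cov(M)` if there is a continuum
Luzin set.
-/

set_option autoImplicit false

namespace Pool.Agent.Y575.SP

open Cardinal Set Filter Topology

/-- infinitely often equal functions for families indexed by `Y` -/
def Catch (Y : Type) : Prop :=
  ∀ a : Y → ℕ → ℕ, ∃ k : ℕ → ℕ, ∀ y, ∃ᶠ n in atTop, k n = a y n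

/-- The Baire space is covered by meager sets indexed by `Y`. -/
def Covers (Y : Type) : Prop :=
  ∃ M : Y → Set (ℕ → ℕ), (∀ y, IsMeagre (M y)) ∧ (⋃ y, M y) = Set.univ

/-- `cov(M)`: the least cardinality of a family of meager sets covering the Baire space. -/
noncomputable def covM : Cardinal.{0} := sInf {κ : Cardinal.{0} | Covers κ.out}

theorem Covers.of_surj {Y Z : Type} (f : Z → Y) (hf : Function.Surjective f) (h : Covers Y) :
    Covers Z := by
  obtain ⟨M, hM, hU⟩ := h
  refine ⟨fun z => M (f z), fun z => hM _, ?_⟩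
  rw [← hU]
  exact hf.iUnion_comp M

theorem covers_iff_out {Y : Type} : Covers Y ↔ Covers (#Y).out := by
  obtain ⟨e⟩ : Nonempty (Y ≃ (#Y).out) := Cardinal.eq.1 (by rw [mk_out])
  exact ⟨Covers.of_surj e.symm e.symm.surjective, Covers.of_surj e e.surjective⟩

theorem covM_le {Y : Type} (h : Covers Y) : covM ≤ #Y :=
  csInf_le' (s := {κ : Cardinal.{0} | Covers κ.out}) (covers_iff_out.1 h)

theorem isMeagre_notEq (a : ℕ → ℕ) : IsMeagre {k : ℕ → ℕ | ¬ ∃ᶠ n in atTop, k n = a n} := by
  have h1 : {k : ℕ → ℕ | ¬ ∃ᶠ n in atTop, k n = a n}ᶜ =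
      ⋂ N : ℕ, {k : ℕ → ℕ | ∃ n, N ≤ n ∧ k n = a n} := by
    ext k
    rw [mem_compl_iff, mem_ofPred_eq, not_not, frequently_atTop, mem_iInter]
    rfl
  rw [IsMeagre, h1]
  refine countable_iInter_mem.2 fun N => ?_
  have h2 : {k : ℕ → ℕ | ∃ n, N ≤ n ∧ k n = a n} = ⋃ n ∈ Ici N, {k : ℕ → ℕ | k n = a n} := by
    ext k; simp
  refine residual_of_dense_open ?_ ?_
  · rw [h2]
    refine isOpen_biUnion fun n _ => ?_
    have hc : Continuous (fun k : ℕ → ℕ => k n) := continuous_apply n
    exact (isOpen_discrete ({a n} : Set ℕ)).preimage hc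
  · rw [dense_iff_inter_open]
    intro O hO ⟨k₀, hk₀⟩
    obtain ⟨I, u, hu, hsub⟩ := isOpen_pi_iff.1 hO k₀ hk₀
    obtain ⟨n, hn, hNn⟩ : ∃ n, n ∉ I ∧ N ≤ n := by
      refine ⟨max N (I.sup id + 1), ?_, le_max_left _ _⟩
      intro hmem
      have h3 := Finset.le_sup (f := id) hmem
      have h4 : I.sup id + 1 ≤ max N (I.sup id + 1) := le_max_right _ _
      simp only [id] at h3
      omega
    refine ⟨Function.update k₀ n (a n), hsub ?_, n, hNn, by simp⟩
    intro i hi
    have hin : i ≠ n := fun h => hn (h ▸ hi)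
    rw [Function.update_of_ne hin]
    exact (hu i hi).2

theorem catch_of_not_covers {Y : Type} (h : ¬ Covers Y) : Catch Y := by
  intro a
  by_contra hcon
  push Not at hcon
  apply h
  refine ⟨fun y => {k : ℕ → ℕ | ¬ ∃ᶠ n in atTop, k n = a y n}, fun y => isMeagre_notEq _, ?_⟩
  rw [eq_univ_iff_forall]
  intro k
  obtain ⟨y, hy⟩ := hcon k
  exact mem_iUnion.2 ⟨y, by rw [mem_ofPred_eq, not_frequently]; exact hy⟩

theorem catch_of_iUnion {Y : Type} (Z : ℕ → Set Y) (hZ : ∀ y, ∃ n, y ∈ Z n)
    (h : ∀ n, Catch (Z n)) : Catch Y := by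
  intro a
  choose k hk using fun n => h n fun (z : Z n) j => a z.1 (Nat.pair n j)
  refine ⟨fun m => k m.unpair.1 m.unpair.2, fun y => ?_⟩
  obtain ⟨n, hn⟩ := hZ y
  have h1 := hk n ⟨y, hn⟩
  rw [frequently_atTop] at h1 ⊢
  intro N
  obtain ⟨j, hj, hj'⟩ := h1 N
  refine ⟨Nat.pair n j, hj.trans (Nat.right_le_pair n j), ?_⟩
  simpa using hj'

/-- the same for partial functions with values in a countable set -/
theorem catch_part {Y : Type} (h : Catch Y) (X : Y → Set ℕ) (hX : ∀ y, (X y).Infinite)
    {C : Type} [Encodable C] [Inhabited C] (f : Y → ℕ → C) :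
    ∃ g : ℕ → C, ∀ y, {n | n ∈ X y ∧ g n = f y n}.Infinite := by
  classical
  let e : Y → ℕ → ℕ := fun y => Nat.nth (· ∈ X y)
  have he : ∀ y, StrictMono (e y) := fun y => Nat.nth_strictMono (hX y)
  have he' : ∀ y n, e y n ∈ X y := fun y n => Nat.nth_mem_of_infinite (hX y) n
  let L : Y → ℕ → List (ℕ × C) := fun y n => (List.range (n + 1)).map fun i => (e y i, f y (e y i))
  obtain ⟨k, hk⟩ := h fun y n => Encodable.encode (L y n)
  let D : ℕ → List (ℕ × C) := fun n => (Encodable.decode (k n)).getD []
  have hD : ∀ y n, k n = Encodable.encode (L y n) → D n = L y n := by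
    intro y n hn
    simp only [D, hn, Encodable.encodek, Option.getD_some]
  -- the greedy choice
  let st : ℕ → List (ℕ × C) := fun n => Nat.rec []
    (fun n s => match (D n).find? (fun p => decide (p.1 ∉ s.map Prod.fst)) with
      | some p => p :: s
      | none => s) n
  have hst : ∀ n, st (n + 1) = match (D n).find? (fun p => decide (p.1 ∉ (st n).map Prod.fst)) with
      | some p => p :: st n
      | none => st n := fun n => rfl
  have hlen : ∀ n, (st n).length ≤ n := by
    intro n
    induction n with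
    | zero => simp [st]
    | succ n ih =>
      rw [hst]
      cases h1 : (D n).find? (fun p => decide (p.1 ∉ (st n).map Prod.fst)) with
      | none => exact ih.trans (Nat.le_succ n)
      | some p => simpa using ih
  have hsub : ∀ m n, m ≤ n → st m ⊆ st n := by
    intro m n hmn
    induction hmn with
    | refl => exact fun _ h => h
    | @step n _ ih =>
      refine fun x hx => ?_
      have h1 := ih hx
      rw [hst]
      cases h2 : (D n).find? (fun p => decide (p.1 ∉ (st n).map Prod.fst)) with
      | none => exact h1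
      | some p => exact List.mem_cons_of_mem _ h1
  have hnd : ∀ n, ((st n).map Prod.fst).Nodup := by
    intro n
    induction n with
    | zero => simp [st]
    | succ n ih =>
      rw [hst]
      cases h1 : (D n).find? (fun p => decide (p.1 ∉ (st n).map Prod.fst)) with
      | none => exact ih
      | some p =>
        have h2 := List.find?_some h1
        simp only [decide_eq_true_eq] at h2
        simpa using ⟨by simpa using h2, ih⟩
  have huniq : ∀ n m c c', (m, c) ∈ st n → (m, c') ∈ st n → c = c' := by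
    intro n m c c' h1 h2
    have h3 := List.inj_on_of_nodup_map (hnd n) h1 h2 rfl
    exact congrArg Prod.snd h3
  let g : ℕ → C := fun m => @dite C (∃ c : C, ∃ n : ℕ, (m, c) ∈ st n) (Classical.propDecidable _)
    (fun h => h.choose) (fun _ => default)
  have hg : ∀ n m c, (m, c) ∈ st n → g m = c := by
    intro n m c hm
    have h1 : ∃ c : C, ∃ n : ℕ, (m, c) ∈ st n := ⟨c, n, hm⟩
    have h2 : g m = h1.choose := dif_pos h1
    rw [h2]
    obtain ⟨n', hn'⟩ := h1.choose_spec
    exact huniq (max n n') m _ _ (hsub _ _ (le_max_right _ _) hn') (hsub _ _ (le_max_left _ _) hm)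
  refine ⟨g, fun y => ?_⟩
  -- the new point at a good place
  have hnew : ∀ n, k n = Encodable.encode (L y n) → ∃ m, m ∉ (st n).map Prod.fst ∧
      m ∈ (st (n + 1)).map Prod.fst ∧ m ∈ X y ∧ g m = f y m := by
    intro n hn
    have h1 := hD y n hn
    have h2 : ∃ p ∈ D n, p.1 ∉ (st n).map Prod.fst := by
      by_contra hcon
      push Not at hcon
      have h3 : ((L y n).map Prod.fst).Nodup := by
        have h4 : (L y n).map Prod.fst = (List.range (n + 1)).map (e y) := by
          simp [L, List.map_map, Function.comp_def]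
        rw [h4]
        exact List.Nodup.map (he y).injective List.nodup_range
      have h5 : (L y n).map Prod.fst ⊆ (st n).map Prod.fst := by
        intro m hm
        obtain ⟨p, hp, rfl⟩ := List.mem_map.1 hm
        exact hcon p (h1 ▸ hp)
      have h6 := (h3.subperm h5).length_le
      have h7 : ((L y n).map Prod.fst).length = n + 1 := by simp [L]
      have h8 := hlen n
      rw [h7, List.length_map] at h6
      omega
    cases h3 : (D n).find? (fun p => decide (p.1 ∉ (st n).map Prod.fst)) with
    | none =>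
      obtain ⟨p, hp, hp'⟩ := h2
      have h4 := List.find?_eq_none.1 h3 p hp
      simp only [decide_eq_true_eq, not_not] at h4
      exact absurd h4 hp'
    | some p =>
      have h4 := List.find?_some h3
      simp only [decide_eq_true_eq] at h4
      have h5 : p ∈ D n := List.mem_of_find?_eq_some h3
      rw [h1] at h5
      obtain ⟨i, _, hi⟩ := List.mem_map.1 h5
      have h6 : p ∈ st (n + 1) := by
        rw [hst, h3]
        exact List.mem_cons_self
      refine ⟨p.1, h4, List.mem_map.2 ⟨p, h6, rfl⟩, ?_, ?_⟩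
      · rw [← hi]; exact he' y i
      · rw [hg (n + 1) p.1 p.2 h6, ← hi]
  have hinf : {n | k n = Encodable.encode (L y n)}.Infinite :=
    Nat.frequently_atTop_iff_infinite.1 (hk y)
  choose! m hm1 hm2 hm3 hm4 using hnew
  refine Set.infinite_of_injOn_mapsTo (f := m) ?_ (fun n hn => ⟨hm3 n hn, hm4 n hn⟩) hinf
  have hkey : ∀ n n', n < n' → n ∈ {n | k n = Encodable.encode (L y n)} →
      n' ∈ {n | k n = Encodable.encode (L y n)} → m n ≠ m n' := by
    intro n n' hlt hn hn' heq
    apply hm1 n' hn'
    rw [← heq]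
    obtain ⟨p, hp, hp'⟩ := List.mem_map.1 (hm2 n hn)
    exact List.mem_map.2 ⟨p, hsub _ _ hlt hp, hp'⟩
  intro n hn n' hn' heq
  rcases lt_trichotomy n n' with h1 | h1 | h1
  · exact absurd heq (hkey n n' h1 hn hn')
  · exact h1
  · exact absurd heq.symm (hkey n' n h1 hn' hn)

/-- the finite sequence `s` is an initial segment of `x` -/
def Ini (s : List ℕ) (x : ℕ → ℕ) : Prop := ∀ i < s.length, x i = s.getD i 0

/-- extending a finite sequence into a dense open set -/
theorem exists_ext {D : Set (ℕ → ℕ)} (hD : IsOpen D) (hd : Dense D) (s : List ℕ) :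
    ∃ t : List ℕ, s <+: t ∧ s.length < t.length ∧ ∀ x, Ini t x → x ∈ D := by
  have h1 : IsOpen {x : ℕ → ℕ | Ini s x} := by
    have h2 : {x : ℕ → ℕ | Ini s x} = ⋂ i ∈ Finset.range s.length, {x : ℕ → ℕ | x i = s.getD i 0} := by
      ext x; simp [Ini]
    rw [h2]
    refine isOpen_biInter_finset fun i _ => ?_
    have hc : Continuous (fun k : ℕ → ℕ => k i) := continuous_apply i
    exact (isOpen_discrete ({s.getD i 0} : Set ℕ)).preimage hc
  obtain ⟨x, hx, hxD⟩ := hd.inter_open_nonempty _ h1 ⟨fun i => s.getD i 0, fun i _ => rfl⟩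
  obtain ⟨I, u, hu, hsub⟩ := isOpen_pi_iff.1 hD x hxD
  set n := max (s.length + 1) (I.sup id + 1) with hn
  have hlt : s.length < n := lt_of_lt_of_le (Nat.lt_succ_self _) (le_max_left _ _)
  refine ⟨(List.range n).map x, ?_, by simpa using hlt, fun z hz => hsub fun i hi => ?_⟩
  · rw [List.prefix_iff_eq_take]
    apply List.ext_getElem
    · simp; omega
    · intro i h3 h4
      have h5 := hx i h3
      rw [List.getD_eq_getElem _ _ h3] at h5
      simp [h5]
  · have h3 : i ≤ I.sup id := Finset.le_sup (f := id) hi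
    have h4 : i < n := by
      have := le_max_right (s.length + 1) (I.sup id + 1)
      omega
    have h5 := hz i (by simpa using h4)
    rw [List.getD_eq_getElem _ _ (by simpa using h4)] at h5
    simp only [List.getElem_map, List.getElem_range] at h5
    rw [h5]
    exact (hu i hi).2

/-- Bartoszyński's theorem -/
theorem not_covers_of_catch {Y : Type} (h : Catch Y) : ¬ Covers Y := by
  classical
  rintro ⟨M, hM, hU⟩
  -- dense open sets
  have hG : ∀ y, ∃ D : ℕ → Set (ℕ → ℕ), (∀ k, IsOpen (D k) ∧ Dense (D k)) ∧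
      (∀ k l, k ≤ l → D l ⊆ D k) ∧ (⋂ k, D k) ⊆ (M y)ᶜ := by
    intro y
    obtain ⟨t, ht1, ht2, ht3⟩ := mem_residual.1 (hM y)
    obtain ⟨U, hU1, hU2⟩ := isGδ_iff_eq_iInter_nat.1 ht2
    refine ⟨fun k => ⋂ i ∈ Finset.range (k + 1), U i, fun k => ⟨?_, ?_⟩, ?_, ?_⟩
    · exact isOpen_biInter_finset fun i _ => hU1 i
    · refine ht3.mono ?_
      rw [hU2]
      intro x hx
      rw [mem_iInter] at hx
      exact mem_iInter₂.2 fun i _ => hx i
    · intro k l hkl x hx
      rw [mem_iInter₂] at hx ⊢
      intro i hi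
      exact hx i (by rw [Finset.mem_range] at hi ⊢; omega)
    · refine Subset.trans ?_ ht1
      rw [hU2]
      intro x hx
      rw [mem_iInter] at hx ⊢
      intro i
      exact mem_iInter₂.1 (hx i) i (by simp)
  choose D hD hDm hDM using hG
  choose φ hφ1 hφ2 hφ3 using fun y (s : List ℕ) =>
    exists_ext (hD y s.length).1 (hD y s.length).2 s
  let e : List ℕ ≃ ℕ := Denumerable.eqv (List ℕ)
  let F : Y → ℕ → ℕ := fun y c => e (φ y (e.symm c))
  let b : Y → ℕ → ℕ := fun y p => (Finset.range p).sup fun c => F y c + 1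
  have hb : ∀ y p c, c < p → F y c < b y p := fun y p c hc =>
    Finset.le_sup (f := fun c => F y c + 1) (Finset.mem_range.2 hc)
  have hbm : ∀ y, Monotone (b y) := fun y p q hpq =>
    Finset.sup_mono (Finset.range_mono hpq)
  obtain ⟨hh, hhh⟩ := h fun y p => b y (b y p)
  let H : ℕ → ℕ := fun p => p + 1 + (Finset.range (p + 1)).sup hh +
    (Finset.range (p + 1)).sup fun c => e (e.symm c ++ [0]) + 1
  have hHm : Monotone H := by
    intro p q hpq
    have h1 : (Finset.range (p + 1)).sup hh ≤ (Finset.range (q + 1)).sup hh :=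
      Finset.sup_mono (Finset.range_mono (by omega))
    have h2 : ((Finset.range (p + 1)).sup fun c => e (e.symm c ++ [0]) + 1) ≤
        (Finset.range (q + 1)).sup fun c => e (e.symm c ++ [0]) + 1 :=
      Finset.sup_mono (Finset.range_mono (by omega))
    show p + 1 + _ + _ ≤ q + 1 + _ + _
    omega
  have hHlt : ∀ p, p < H p := fun p => by
    show p < p + 1 + _ + _
    omega
  have hHh : ∀ p, hh p ≤ H p := fun p => by
    have h1 : hh p ≤ (Finset.range (p + 1)).sup hh :=
      Finset.le_sup (f := hh) (Finset.mem_range.2 (Nat.lt_succ_self p))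
    show hh p ≤ p + 1 + _ + _
    omega
  have hHe : ∀ p c, c < p → e (e.symm c ++ [0]) < H p := fun p c hc => by
    have h1 : e (e.symm c ++ [0]) + 1 ≤ (Finset.range (p + 1)).sup fun c =>
        e (e.symm c ++ [0]) + 1 :=
      Finset.le_sup (f := fun c => e (e.symm c ++ [0]) + 1) (Finset.mem_range.2 (by omega))
    show _ < p + 1 + _ + _
    omega
  let p : ℕ → ℕ := fun i => Nat.rec (e [] + 1) (fun _ q => H q) i
  have hp : ∀ i, p (i + 1) = H (p i) := fun i => rfl
  have hpm : StrictMono p := strictMono_nat_of_lt_succ fun i => by rw [hp]; exact hHlt _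
  -- the good places
  have hX : ∀ y, {i | b y (p i) ≤ p (i + 1)}.Infinite := by
    intro y hfin
    obtain ⟨N, hN⟩ := hfin.bddAbove
    have hN' : ∀ i, N < i → p (i + 1) < b y (p i) := by
      intro i hi
      by_contra hcon
      exact absurd (hN (show i ∈ {i | b y (p i) ≤ p (i + 1)} from not_lt.1 hcon)) (not_le.2 hi)
    have h1 := hhh y
    rw [frequently_atTop] at h1
    obtain ⟨m, hm, hm'⟩ := h1 (p (N + 1))
    have hfind : ∀ j, m < p j → ∃ i, N + 1 ≤ i ∧ p i ≤ m ∧ m < p (i + 1) := by
      intro j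
      induction j with
      | zero =>
        intro hj
        exact absurd (hj.trans_le (hpm.monotone (Nat.zero_le (N + 1)))) (not_lt.2 hm)
      | succ j ih =>
        intro hj
        rcases lt_or_ge m (p j) with h2 | h2
        · exact ih h2
        · refine ⟨j, ?_, h2, hj⟩
          by_contra hcon
          have h3 : j + 1 ≤ N + 1 := by omega
          exact absurd (hj.trans_le (hpm.monotone h3)) (not_lt.2 hm)
    obtain ⟨i, hNi, hi1, hj⟩ := hfind (m + 1) (lt_of_lt_of_le (Nat.lt_succ_self m)
      (hpm.id_le (m + 1)))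
    have h2 : p (i + 1) ≤ b y m := (hN' i (by omega)).le.trans (hbm y hi1)
    have h3 : p (i + 2) < b y (b y m) := (hN' (i + 1) (by omega)).trans_le (hbm y h2)
    have h4 : H m ≤ p (i + 2) := hHm hj.le
    have h5 := hHh m
    rw [hm'] at h5
    omega
  obtain ⟨g, hg⟩ := catch_part h (fun y => {i | b y (p i) ≤ p (i + 1)}) hX
    (fun y i => (List.range (p i)).map (F y))
  -- the construction
  let nx : ℕ → ℕ → ℕ := fun i c => if e.symm c <+: e.symm ((g i).getD c 0) ∧
      (e.symm c).length < (e.symm ((g i).getD c 0)).length ∧ (g i).getD c 0 < p (i + 1) then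
      (g i).getD c 0 else e (e.symm c ++ [0])
  let c : ℕ → ℕ := fun i => Nat.rec (e []) (fun i c => nx i c) i
  have hc : ∀ i, c (i + 1) = nx i (c i) := fun i => rfl
  have hcp : ∀ i, c i < p i := by
    intro i
    induction i with
    | zero => exact Nat.lt_succ_self _
    | succ i ih =>
      rw [hc]
      by_cases h1 : e.symm (c i) <+: e.symm ((g i).getD (c i) 0) ∧
          (e.symm (c i)).length < (e.symm ((g i).getD (c i) 0)).length ∧
          (g i).getD (c i) 0 < p (i + 1)
      · have h2 : nx i (c i) = (g i).getD (c i) 0 := if_pos h1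
        rw [h2]
        exact h1.2.2
      · have h2 : nx i (c i) = e (e.symm (c i) ++ [0]) := if_neg h1
        rw [h2, hp]
        exact hHe _ _ ih
  have hstep : ∀ i, e.symm (c i) <+: e.symm (c (i + 1)) ∧
      (e.symm (c i)).length < (e.symm (c (i + 1))).length := by
    intro i
    rw [hc]
    by_cases h1 : e.symm (c i) <+: e.symm ((g i).getD (c i) 0) ∧
        (e.symm (c i)).length < (e.symm ((g i).getD (c i) 0)).length ∧
        (g i).getD (c i) 0 < p (i + 1)
    · have h2 : nx i (c i) = (g i).getD (c i) 0 := if_pos h1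
      rw [h2]
      exact ⟨h1.1, h1.2.1⟩
    · have h2 : nx i (c i) = e (e.symm (c i) ++ [0]) := if_neg h1
      rw [h2, Equiv.symm_apply_apply]
      exact ⟨List.prefix_append _ _, by simp⟩
  have hpre : ∀ i j, i ≤ j → e.symm (c i) <+: e.symm (c j) := by
    intro i j hij
    induction hij with
    | refl => exact List.prefix_refl _
    | step _ ih => exact ih.trans (hstep _).1
  have hlen : ∀ i, i ≤ (e.symm (c i)).length := by
    intro i
    induction i with
    | zero => exact Nat.zero_le _
    | succ i ih => exact lt_of_le_of_lt ih (hstep i).2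
  have hgetD : ∀ i j n, i ≤ j → n < (e.symm (c i)).length →
      (e.symm (c j)).getD n 0 = (e.symm (c i)).getD n 0 := by
    intro i j n hij hn
    obtain ⟨t, ht⟩ := hpre i j hij
    rw [← ht, List.getD_append _ _ _ _ hn]
  let x : ℕ → ℕ := fun n => (e.symm (c (n + 1))).getD n 0
  have hx : ∀ i, Ini (e.symm (c i)) x := by
    intro i n hn
    have h1 : n < (e.symm (c (n + 1))).length := lt_of_lt_of_le (Nat.lt_succ_self n) (hlen _)
    show (e.symm (c (n + 1))).getD n 0 = _
    rcases le_total i (n + 1) with h2 | h2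
    · exact hgetD i (n + 1) n h2 hn
    · exact (hgetD (n + 1) i n h2 h1).symm
  -- the contradiction
  have h1 : x ∈ ⋃ y, M y := by rw [hU]; exact mem_univ x
  obtain ⟨y, hy⟩ := mem_iUnion.1 h1
  refine hDM y ?_ hy
  rw [mem_iInter]
  intro k
  obtain ⟨i, hi, hki⟩ := (hg y).exists_gt k
  obtain ⟨hi1, hi2⟩ := hi
  have h2 : (g i).getD (c i) 0 = F y (c i) := by
    rw [hi2, List.getD_eq_getElem _ _ (by simpa using hcp i)]
    simp
  have h3 : e.symm (F y (c i)) = φ y (e.symm (c i)) := e.symm_apply_apply _
  have h4 : c (i + 1) = F y (c i) := by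
    rw [hc, ← h2]
    refine if_pos ⟨?_, ?_, ?_⟩
    · rw [h2, h3]; exact hφ1 y _
    · rw [h2, h3]; exact hφ2 y _
    · rw [h2]; exact (hb y (p i) (c i) (hcp i)).trans_le hi1
  have h5 : x ∈ D y (e.symm (c i)).length := by
    apply hφ3 y (e.symm (c i))
    rw [← h3, ← h4]
    exact hx (i + 1)
  exact hDm y k _ (hki.le.trans (hlen i)) h5

end Pool.Agent.Y575.SP
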