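import Mathlib
import Pool.Agent.Y575.SP.Bart

/-!
# ZFC restrictions on `cov(M)` in the presence of a continuum Luzin set, and cardinal arithmetic
-/

set_option autoImplicit false

namespace Pool.Agent.Y575.SP

open Cardinal Set Filter Topology

theorem catch_of_countable (Y : Type) [Countable Y] : Catch Y := by
  intro a
  rcases isEmpty_or_nonempty Y with h | h
  · exact ⟨fun _ => 0, fun i => (h.false i).elim⟩
  · obtain ⟨e, he⟩ := exists_surjective_nat Y
    refine ⟨fun n => a (e n.unpair.1) n, fun i => ?_⟩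
    obtain ⟨l, rfl⟩ := he i
    rw [frequently_atTop]
    intro N
    exact ⟨Nat.pair l N, Nat.right_le_pair l N, by simp⟩

/-- the points cover the space -/
theorem covers_space : Covers (ℕ → ℕ) := by
  refine ⟨fun x => {x}, fun x => ?_, iUnion_of_singleton _⟩
  refine IsMeagre.mono ?_ (isMeagre_notEq fun n => x n + 1)
  rintro z hz
  rw [mem_singleton_iff] at hz
  rw [mem_ofPred_eq, not_frequently, hz]
  exact Eventually.of_forall fun n => (Nat.lt_succ_self _).ne

theorem mk_space : #(ℕ → ℕ) = 𝔠 := by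
  simp [mk_pi, aleph0_power_aleph0]

theorem covM_le_continuum : covM ≤ 𝔠 := by
  rw [← mk_space]
  exact covM_le covers_space

theorem covers_covM : Covers covM.out :=
  csInf_mem (s := {κ : Cardinal.{0} | Covers κ.out})
    ⟨#(ℕ → ℕ), covers_iff_out.1 covers_space⟩

theorem aleph0_lt_covM : ℵ₀ < covM := by
  by_contra hcon
  have h1 : Countable covM.out := by
    rw [← mk_le_aleph0_iff, mk_out]
    exact not_lt.1 hcon
  exact not_covers_of_catch (catch_of_countable covM.out) covers_covM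

/-- `cov(M)` does not have countable cofinality. -/
theorem aleph0_lt_cof_covM : ℵ₀ < covM.ord.cof := by
  by_contra hcon
  push Not at hcon
  have hW : #(covM.ord.ToType) = covM := mk_ord_toType covM
  obtain ⟨S, hS, hS'⟩ := Order.exists_cof_eq covM.ord.ToType
  rw [Ordinal.cof_toType] at hS'
  have hSc : S.Countable := le_aleph0_iff_set_countable.1 (hS'.le.trans hcon)
  have hne : Nonempty covM.ord.ToType := by
    rw [← mk_ne_zero_iff, hW]
    exact (aleph0_pos.trans aleph0_lt_covM).ne'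
  obtain ⟨w⟩ := hne
  obtain ⟨s0, hs0, _⟩ := hS w
  obtain ⟨f, hf⟩ := hSc.exists_eq_range ⟨s0, hs0⟩
  have hcatch : Catch covM.ord.ToType := by
    refine catch_of_iUnion (fun n => Set.Iic (f n)) (fun y => ?_) (fun n => ?_)
    · obtain ⟨s, hs, hys⟩ := hS y
      rw [hf] at hs
      obtain ⟨n, rfl⟩ := hs
      exact ⟨n, hys⟩
    · refine catch_of_not_covers fun hc => ?_
      have h1 := covM_le hc
      have h2 : #(Set.Iic (f n)) < covM := by
        have h5 : Set.Iic (f n) = insert (f n) (Set.Iio (f n)) := by rw [Set.Iio_insert]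
        rw [h5]
        refine mk_insert_le.trans_lt ?_
        exact add_lt_of_lt aleph0_lt_covM.le (Cardinal.mk_Iio_toType_ord_lt _)
          (one_lt_aleph0.trans aleph0_lt_covM)
      exact absurd h1 (not_le.2 h2)
  refine not_covers_of_catch hcatch ?_
  rw [covers_iff_out, hW]
  exact covers_covM

/-- If there is a continuum Luzin set, then `cf(𝔠) ≤ cov(M)`. -/
theorem cof_continuum_le (L : Set (ℕ → ℕ)) (hL : #L = 𝔠)
    (hM : ∀ M : Set (ℕ → ℕ), IsMeagre M → #(L ∩ M : Set (ℕ → ℕ)) < 𝔠) :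
    (𝔠 : Cardinal.{0}).ord.cof ≤ covM := by
  by_contra hcon
  push Not at hcon
  obtain ⟨M, hMm, hU⟩ := covers_covM
  have h1 : L = ⋃ y, L ∩ M y := by
    rw [← inter_iUnion, hU, inter_univ]
  have h2 : #L ≤ #(covM.out) * ⨆ y, #(L ∩ M y : Set (ℕ → ℕ)) := by
    conv_lhs => rw [h1]
    exact mk_iUnion_le _
  rw [mk_out, hL] at h2
  refine absurd h2 (not_le.2 (mul_lt_of_lt aleph0_le_continuum ?_ ?_))
  · exact hcon.trans_le (Ordinal.cof_ord_le 𝔠)
  · exact Cardinal.iSup_lt_of_lt_cof_ord (by rw [mk_out]; exact hcon) fun y => hM _ (hMm y)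

/-- cardinals of uncountable cofinality under the generalized continuum hypothesis -/
theorem pow_aleph0_of_gch (hgch : ∀ μ : Cardinal.{0}, ℵ₀ ≤ μ → 2 ^ μ = Order.succ μ)
    {κ : Cardinal.{0}} (hcof : ℵ₀ < κ.ord.cof) : κ ^ ℵ₀ = κ := by
  have hκ : ℵ₀ < κ := hcof.trans_le (Ordinal.cof_ord_le κ)
  apply le_antisymm _ (self_le_power κ one_le_aleph0)
  have hJ : #(κ.ord.ToType) = κ := mk_ord_toType κ
  have h1 : κ ^ ℵ₀ = #(ℕ → κ.ord.ToType) := by simp [mk_pi, hJ]
  rw [h1]
  have h2 : ∀ f : ℕ → κ.ord.ToType, ∃ b, ∀ n, f n < b := fun f => by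
    by_contra hcon
    push Not at hcon
    have h3 : IsCofinal (Set.range f) := fun b => by
      obtain ⟨n, hn⟩ := hcon b
      exact ⟨f n, ⟨n, rfl⟩, hn⟩
    have h4 := Order.cof_le h3
    rw [Ordinal.cof_toType] at h4
    exact absurd (h4.trans (le_aleph0_iff_set_countable.2 (Set.countable_range f)))
      (not_le.2 hcof)
  choose b hb' using h2
  have h3 : #(ℕ → κ.ord.ToType) ≤ #(Σ c : κ.ord.ToType, ℕ → Set.Iio c) := by
    refine mk_le_of_injective (f := fun f => ⟨b f, fun n => ⟨f n, hb' f n⟩⟩) ?_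
    intro f f' hff
    simp only [Sigma.mk.injEq] at hff
    obtain ⟨h4, h5⟩ := hff
    funext n
    have : ∀ (c c' : κ.ord.ToType) (u : ℕ → Set.Iio c) (u' : ℕ → Set.Iio c'), c = c' → HEq u u' →
        (u n).1 = (u' n).1 := by
      rintro c _ u u' rfl h
      rw [eq_of_heq h]
    exact this _ _ _ _ h4 h5
  refine h3.trans ?_
  rw [mk_sigma]
  refine (Cardinal.sum_le_sum _ (fun _ => κ) fun c => ?_).trans ?_
  · have h6 : #(ℕ → Set.Iio c) = #(Set.Iio c) ^ ℵ₀ := by simp [mk_pi]
    rw [h6]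
    have h7 : #(Set.Iio c) ≤ max (#(Set.Iio c)) ℵ₀ := le_max_left _ _
    have h8 : max (#(Set.Iio c)) ℵ₀ ≠ 0 := (aleph0_pos.trans_le (le_max_right _ _)).ne'
    refine (power_le_power_right h7).trans ?_
    refine (power_le_power_left h8 (le_max_right (#(Set.Iio c)) ℵ₀)).trans ?_
    rw [power_self_eq (le_max_right _ _), hgch _ (le_max_right _ _)]
    exact Order.succ_le_of_lt (max_lt (Cardinal.mk_Iio_toType_ord_lt c) hκ)
  · rw [Cardinal.sum_const', hJ]
    exact (mul_eq_self hκ.le).le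

theorem cof_aleph_omega_one : (ℵ_ (Ordinal.omega 1) : Cardinal.{0}).ord.cof = ℵ₁ := by
  rw [Cardinal.ord_aleph]
  exact (Ordinal.cof_map_of_isNormal Ordinal.isNormal_omega (isSuccLimit_omega 1)).trans
    cof_omega_one

end Pool.Agent.Y575.SP
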